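import Mathlib
import Pool.Agent.Q36.WeightedSums
import Pool.Agent.Q36.WeightedSumsSeries

/-!
# The signed weighted partition sum `B_n` vanishes for `n > 1`
-/

namespace Pool.Agent.Results.MP_62fa17_nt.SignedSumVanishes

open Pool.Agent.Q36.WeightedSums

/-- `B_n = ∑_{λ ∈ Λ_n} (-1) ^ (1 + λ_1) (1 + λ_1) C(λ) ∏_{i=1}^n ((2 i - 1) / i) ^ λ_i`. -/
noncomputable def B (n : ℕ) : ℚ :=
  ∑ l ∈ Lam n, ((-1) ^ (1 + entry l 0) * (1 + (entry l 0 : ℚ))) * (binomProd l : ℚ) *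
    ∏ i ∈ Finset.range n, ((2 * ((i + 1 : ℕ) : ℚ) - 1) / ((i + 1 : ℕ) : ℚ)) ^ entry l i

/-- `B_n = 0` for every `n > 1`. -/
theorem result (n : ℕ) (hn : 1 < n) : B n = 0 := by
  unfold B
  rw [sum_Lam_eq n (by omega) (fun i => (2 * ((i + 1 : ℕ) : ℚ) - 1) / ((i + 1 : ℕ) : ℚ))
    (fun a => (-1) ^ (1 + a) * (1 + (a : ℚ)))
    (gS - 1) (by simp [gS, gCoeff]) (by
      intro k hk
      unfold gS
      rw [map_sub, PowerSeries.coeff_one, if_neg (by omega), PowerSeries.coeff_mk, sub_zero]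
      rfl)]
  have h := coeff_truncated (1 - gS) (1 - 2 * PowerSeries.X) (by simp [gS, gCoeff])
    (by rw [sub_sub_cancel, one_sub_mul_g_sq]) n
  have h0 : PowerSeries.coeff n (1 - 2 * PowerSeries.X : PowerSeries ℚ) = 0 := by
    have h1 := coeff_one_sub_mul 1 n
    rw [mul_one] at h1
    rw [h1, PowerSeries.coeff_one, if_neg (by omega), if_neg (by omega), PowerSeries.coeff_one,
      if_neg (by omega)]
    ring
  rw [h0] at h
  have h2 : ∑ a ∈ Finset.range (n + 1), PowerSeries.C ((-1) ^ (1 + a) * (1 + (a : ℚ))) *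
      (gS - 1) ^ a =
      -∑ a ∈ Finset.range (n + 1), (1 + (a : PowerSeries ℚ)) * (1 - gS) ^ a := by
    rw [← Finset.sum_neg_distrib]
    refine Finset.sum_congr rfl fun a _ => ?_
    have h3 : (1 - gS) ^ a = (-1) ^ a * (gS - 1) ^ a := by
      rw [← mul_pow]
      congr 1
      ring
    rw [h3, map_mul, map_pow, map_neg, map_one, map_add, map_one, map_natCast, pow_add, pow_one]
    ring
  rw [h2, map_neg, h, neg_zero]

end Pool.Agent.Results.MP_62fa17_nt.SignedSumVanishes
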