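import Mathlib
import Pool.Agent.Q36.WeightedSums
import Pool.Agent.Q36.WeightedSumsSeries

/-!
# The weighted partition sum `A_n` equals `2 ^ n`
-/

namespace Pool.Agent.Results.MP_62fa17_nt.SumIsPowerOfTwo

open Pool.Agent.Q36.WeightedSums

/-- `A_n = ∑_{λ ∈ Λ_n} (1 + λ_1) C(λ) ∏_{i=1}^n (a_i / i) ^ λ_i`, where `a_1 = 1` and `a_i = 2 i - 3`
for `i ≥ 2`. -/
noncomputable def A (n : ℕ) : ℚ :=
  ∑ l ∈ Lam n, (1 + (entry l 0 : ℚ)) * (binomProd l : ℚ) *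
    ∏ i ∈ Finset.range n, (aWeight (i + 1) / ((i + 1 : ℕ) : ℚ)) ^ entry l i

/-- `A_n = 2 ^ n` for every `n ≥ 1`. -/
theorem result (n : ℕ) (hn : 1 ≤ n) : A n = 2 ^ n := by
  unfold A
  rw [sum_Lam_eq n hn (fun i => aWeight (i + 1) / ((i + 1 : ℕ) : ℚ)) (fun a => 1 + (a : ℚ))
    (1 - yS) (by simp [yS]) (by
      intro k hk
      unfold yS
      rw [map_sub, PowerSeries.coeff_one, if_neg (by omega), PowerSeries.coeff_mk, if_neg (by omega)]
      simp [fCoeff])]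
  have h := coeff_truncated (1 - yS) (gS ^ 2) (by simp [yS])
    (by rw [sub_sub_cancel, ← mul_pow, mul_comm, y_mul_g, one_pow]) n
  rw [coeff_g_sq] at h
  rw [← h]
  congr 1
  refine Finset.sum_congr rfl fun a _ => ?_
  simp

end Pool.Agent.Results.MP_62fa17_nt.SumIsPowerOfTwo
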